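import Pool.Agent.K4H55.BM.Main
import Pool.Agent.K4H55.BK.Odd

/-!
# Counting quadratic twists of elliptic curves over imaginary quadratic fields

`K` is an imaginary quadratic field of class number one and `E_i : y² = x³ + a_i x + b_i` (`i = 1, …, m`) are
elliptic curves over `K` with Bianchi newforms `f_i` and `L(E_i/K, 1) ≠ 0`.  Some automorphism of the algebraic
closure of `K` over `K` moves all the points of order two of all the `E_i`; for `m = 1` this says that
`E(K)[2] = 0`.  The quadratic characters over `K` of odd conductor are the products `χ_T` of the quadratic residue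
symbols at the primes `v` of finite sets `T` with `χ_T(u) = 1` for all units `u`.

Theorem: (1) there is `ε > 0` such that for every finite set of local conditions (`χ(y) = 1` for the elements
`y ≠ 0` of a finite set, for instance generators of the primes of a finite set `S`) at least
`X / (log X)^(1 - ε)` quadratic characters `χ` over `K` with conductor of norm at most `X` and with these local
conditions have `L(E_i ⊗ χ, 1) ≠ 0` for all `i`.  (2) If the central values of the `f_i` are odd, then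
`L(E_i ⊗ χ_T, 1) ≠ 0` for all `i` and all `T` for which the primes `v ∈ T` do not divide `2(4a_i³ + 27b_i²)` and
the polynomials `x³ + a_i x + b_i` have no roots modulo `v`.

So for `F = K`, `π` the automorphic representation of `E`, and all sets `S`, there are at least
`X / (log X)^(1 - ε)` characters of central order zero; and for odd central value the central order is zero for all
characters of a class defined by local conditions at the primes of the conductor.

The proof: let `Φ` be the primitive of the harmonic differential of `f`.  The finite sums `∑ χ_T(x) Φ(x/m_T)`, `Φ`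
being extended to the cusps, are the central values up to nonzero factors.  The sum `∑ Φ(x/m_T)` over the
`x` prime to `m_T` is `∏_{v ∈ T} (c(v) - 2)` times `Φ(0)`, an odd multiple, and the difference of the two sums is in
`2wΛ`, where `Λ` is the group generated by the values of `Φ` at the cusps, and `w` comes from the units
(`Φ(u z, t) = Φ(z, t)`).  This gives (2).  In general, by Krull's intersection theorem for the powers of a
maximal ideal above `2` of the ring of Hecke eigenvalues, boundedly many corrections by characters of the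
class give nonvanishing, and (1) follows from the theorem of Chebotarev for the Galois closure of the fields
of the points of order two over `ℚ` and from a lower bound for the number of the products of primes of a set
of positive density.
-/

set_option autoImplicit false

open NumberField IsDedekindDomain Matrix Filter Topology
open scoped symmDiff

namespace Pool.Agent.Results.MP_50bb2e_nt.BianchiCharacterCount

/-- `K` is an imaginary quadratic field, `σ` is one of its two embeddings in `ℂ`, and `δ` generates the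
different of `K`: an `x ∈ K` is in `𝓞` if and only if `Tr(x y / δ) ∈ ℤ` for all `y ∈ 𝓞`. -/
structure IsFieldData (K : Type) [Field K] [NumberField K] (σ : K →+* ℂ) (δ : K) : Prop where
  quadratic : Module.finrank ℚ K = 2
  imaginary : ∃ x, (starRingEnd ℂ) (σ x) ≠ σ x
  different : ∀ x : K, (∃ a : 𝓞 K, (a : K) = x) ↔
    ∀ y : 𝓞 K, ∃ m : ℤ, Algebra.trace ℚ K (x * y / δ) = m

/-- `h(y) = ∫_0^∞ exp(-1/v - y v) dv = 2 y^(-1/2) K₁(2 √y)`, with the Bessel function `K₁`. -/
noncomputable def bessel (y : ℝ) : ℝ := ∫ v in Set.Ioi (0 : ℝ), Real.exp (-(1 / v) - y * v)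

/-- The additive character `e(z) = exp(2πi (z/δ + conj (z/δ)))` of `ℂ`, trivial on `𝓞`. -/
noncomputable def addChar (δ z : ℂ) : ℂ :=
  Complex.exp (2 * Real.pi * Complex.I * (z / δ + (starRingEnd ℂ) (z / δ)))

/-- The denominator `|c z + d|² + |c|² t²` of the action of the matrix `(a, b; c, d)` on the hyperbolic
space `{(z, t) : z ∈ ℂ, t > 0}`. -/
noncomputable def den (c d z : ℂ) (t : ℝ) : ℝ := ‖c * z + d‖ ^ 2 + ‖c‖ ^ 2 * t ^ 2

/-- The first coordinate `((a z + b) conj (c z + d) + a conj(c) t²) / (|c z + d|² + |c|² t²)` of the image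
of `(z, t)` under the matrix `(a, b; c, d)`. -/
noncomputable def actZ (a b c d z : ℂ) (t : ℝ) : ℂ :=
  ((a * z + b) * (starRingEnd ℂ) (c * z + d) + a * (starRingEnd ℂ) c * (t : ℂ) ^ 2) /
    (den c d z t : ℂ)

/-- The second coordinate, for a matrix of determinant one; in general it is `|ad - bc|` times this. -/
noncomputable def actT (c d z : ℂ) (t : ℝ) : ℝ := t / den c d z t

section field
variable {K : Type} [Field K] [NumberField K]

/-- The function `Φ(z, t) = ∑_{x ∈ 𝓞} c((x)) t² h(N(x) (2πt/|δ|)²) e(x z)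
  = (|δ|/π) ∑_{x ≠ 0} (c((x))/|x|) t K₁(4π|x|t/|δ|) e(x z)` on the hyperbolic space, with the coefficients `c`.
Up to a constant factor it is the primitive, zero at the cusp `∞`, of the harmonic differential of the
form of weight two with the Fourier coefficients `c`: its derivative by `t` is
`-4 ∑_{x ≠ 0} c((x)) t K₀(4π|x|t/|δ|) e(x z)`. -/
noncomputable def primitive (σ : K →+* ℂ) (δ : K) (c : Ideal (𝓞 K) → ℂ) (z : ℂ) (t : ℝ) : ℂ :=
  ∑' x : 𝓞 K, c (Ideal.span {x}) * ((t ^ 2 * bessel (Ideal.absNorm (Ideal.span {x}) *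
    (2 * Real.pi * t / ‖σ δ‖) ^ 2) : ℝ) : ℂ) * addChar (σ δ) (σ x * z)

/-- The numbers `c(I)` are the Hecke eigenvalues of a Bianchi newform `f` of weight two, level `(n)` and
trivial character over `K`: they satisfy `c(𝓞) = 1`, the (trivial) bound `c(I) = O(N(I))` and the Hecke
relations `c(v I) = c(v) c(I)` for `v ∤ I`, `c(v² I) = c(v) c(v I) - N(v) c(I)` for the primes `v ∤ n`, and
`c(v I) = c(v) c(I)` for `v ∣ n`; the differential `dΦ` of the function `Φ` with the coefficients `c` is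
invariant under `Γ₀(n)`, that is, `Φ(γ P) - Φ(P)` is a constant for every `γ ∈ Γ₀(n)`; and `dΦ` is an
eigenform, with the eigenvalue `±1`, of the Fricke involution `W = (0, -1; n, 0)`. -/
structure IsNewform (σ : K →+* ℂ) (δ : K) (n : 𝓞 K) (c : Ideal (𝓞 K) → ℂ) : Prop where
  level : n ≠ 0
  zero : c ⊥ = 0
  one : c ⊤ = 1
  bound : ∃ C : ℝ, ∀ I, ‖c I‖ ≤ C * Ideal.absNorm I
  good : ∀ v : HeightOneSpectrum (𝓞 K), n ∉ v.asIdeal → ∀ I,
    (¬ v.asIdeal ∣ I → c (v.asIdeal * I) = c v.asIdeal * c I) ∧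
    c (v.asIdeal * (v.asIdeal * I)) = c v.asIdeal * c (v.asIdeal * I) -
      Ideal.absNorm v.asIdeal * c I
  bad : ∀ v : HeightOneSpectrum (𝓞 K), n ∈ v.asIdeal → ∀ I,
    c (v.asIdeal * I) = c v.asIdeal * c I
  invariant : ∃ κ : SpecialLinearGroup (Fin 2) (𝓞 K) → ℂ,
    ∀ γ : SpecialLinearGroup (Fin 2) (𝓞 K), n ∣ γ.1 1 0 → ∀ (z : ℂ) (t : ℝ), 0 < t →
      primitive σ δ c (actZ (σ (γ.1 0 0)) (σ (γ.1 0 1)) (σ (γ.1 1 0)) (σ (γ.1 1 1)) z t)
        (actT (σ (γ.1 1 0)) (σ (γ.1 1 1)) z t) = primitive σ δ c z t + κ γ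
  fricke : ∃ w κ : ℂ, w * w = 1 ∧ ∀ (z : ℂ) (t : ℝ), 0 < t →
    primitive σ δ c (actZ 0 (-1) (σ n) 0 z t) (‖σ n‖ * actT (σ n) 0 z t) =
      -w * primitive σ δ c z t + κ

open Classical in
/-- The quadratic residue symbol `(x / v)`, for `v ∤ 2`. -/
noncomputable def symbol (v : HeightOneSpectrum (𝓞 K)) (x : 𝓞 K) : ℂ :=
  if x ∈ v.asIdeal then 0 else if ∃ y, x - y ^ 2 ∈ v.asIdeal then 1 else -1

/-- `χ_T(x) = ∏_{v ∈ T} (x / v)`. -/
noncomputable def chi (T : Finset (HeightOneSpectrum (𝓞 K))) (x : 𝓞 K) : ℂ := ∏ v ∈ T, symbol v x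

/-- The norm of the conductor `∏_{v ∈ T} v` of `χ_T`. -/
noncomputable def conductorNorm (T : Finset (HeightOneSpectrum (𝓞 K))) : ℕ :=
  ∏ v ∈ T, Ideal.absNorm v.asIdeal

/-- The central value is odd.  The central value `L(f, 1)` is, up to a nonzero elementary factor, the value `Φ(0)` of the
primitive `Φ` at the cusp `0` (the limit of `Φ(0, t)` for `t → 0`).  Let `Λ` be the group generated by the values of `Φ` at
the cusps `x/m`, `m ≠ 0` prime to the level, and let `w` be the number of the `u ∈ 𝓞` with `u⁴ = 1`: `w = 4` for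
`K = ℚ(i)`, otherwise `w = 2`.  The condition is that `Φ(0)` is not in `2 w Λ`.  (The sum of the values of `Φ` at the `x/m`, `x`
prime to `m` modulo `m`, is in `w Λ`, as `Φ(u z, t) = Φ(z, t)` for units `u`, and it is an odd multiple of `Φ(0)` if `m`
is the product of primes with odd eigenvalues.  So `Φ(0)` is in `w Λ` if there is such a prime.) -/
def OddCentralValue (σ : K →+* ℂ) (δ : K) (n : 𝓞 K) (c : Ideal (𝓞 K) → ℂ) : Prop :=
  ∃ z, Tendsto (fun t => primitive σ δ c 0 t) (𝓝[>] 0) (𝓝 z) ∧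
    ∀ y ∈ AddSubgroup.closure {z' | ∃ x m : 𝓞 K, m ≠ 0 ∧ IsCoprime m n ∧
      Tendsto (fun t => primitive σ δ c (σ x / σ m) t) (𝓝[>] 0) (𝓝 z')},
      z ≠ 2 * (Nat.card {u : 𝓞 K // u ^ 4 = 1} : ℂ) * y

/-- The number of the affine points of `y² = x³ + a x + b` over the residue field of `v`. -/
noncomputable def points (a b : 𝓞 K) (v : HeightOneSpectrum (𝓞 K)) : ℕ :=
  Nat.card {x : (𝓞 K ⧸ v.asIdeal) × (𝓞 K ⧸ v.asIdeal) //
    x.2 ^ 2 = x.1 ^ 3 + (Ideal.Quotient.mk v.asIdeal a) * x.1 + (Ideal.Quotient.mk v.asIdeal b)}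

/-- `f` is the newform of `E : y² = x³ + a x + b`: for `v ∤ 2(4a³ + 27b²)` (so that `E` has good reduction at `v`)
the level is prime to `v` and `c(v) = N(v) + 1 - #E(𝓞/v)`. -/
def IsNewformOf (a b n : 𝓞 K) (c : Ideal (𝓞 K) → ℂ) : Prop :=
  ∀ v : HeightOneSpectrum (𝓞 K), 2 * (4 * a ^ 3 + 27 * b ^ 2) ∉ v.asIdeal →
    n ∉ v.asIdeal ∧ c v.asIdeal = (Ideal.absNorm v.asIdeal : ℂ) - points a b v

/-- The class of the sets `T` of primes: every `v ∈ T` is prime to `2` and to `4a_i³ + 27b_i²`, and `x³ + a_i x + b_i` has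
no root modulo `v`, for all `i`; `χ_T` is trivial on the units, so that it is a quadratic character over `K` of
conductor `∏_{v ∈ T} v` (with the value `χ_T(x)` at the ideal `(x)`); and `χ_T(y) = 1` for all `y ∈ Y`.  (For the
generator `y` of a prime this says that the local component of `χ_T` at this prime is trivial.) -/
structure InClass {m : ℕ} (a b : Fin m → 𝓞 K) (Y : Set (𝓞 K))
    (T : Finset (HeightOneSpectrum (𝓞 K))) : Prop where
  odd : ∀ v ∈ T, (2 : 𝓞 K) ∉ v.asIdeal
  good : ∀ v ∈ T, ∀ i, 2 * (4 * a i ^ 3 + 27 * b i ^ 2) ∉ v.asIdeal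
  no_root : ∀ v ∈ T, ∀ i, ∀ x : 𝓞 K, x ^ 3 + a i * x + b i ∉ v.asIdeal
  units : ∀ u, IsUnit u → chi T u = 1
  split : ∀ y ∈ Y, chi T y = 1

/-- There is one curve, without `K`-rational points of order two; or there are several curves, and an automorphism of
the algebraic closure of `K` over `K` moves all their points of order two. -/
def Movable {m : ℕ} (a b : Fin m → 𝓞 K) : Prop :=
  (m = 1 ∧ ∀ i, ∀ x : K, x ^ 3 + a i * x + b i ≠ 0) ∨
    ∃ g : AlgebraicClosure K ≃ₐ[K] AlgebraicClosure K, ∀ i, ∀ t : AlgebraicClosure K,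
      t ^ 3 + algebraMap K (AlgebraicClosure K) (a i) * t +
        algebraMap K (AlgebraicClosure K) (b i) = 0 → g t ≠ t

variable [IsPrincipalIdealRing (𝓞 K)]

/-- `L(f ⊗ χ_T, s)` is entire and not zero at the central point `s = 1`: there is an entire function `G` with
`G(1) ≠ 0` which for `Re s > 2` is the complete Euler product of
`(1 - c(v) χ_T(v) (Nv)^(-s) + χ_T(v)² (Nv)^(1-2s))⁻¹` (without the last term if `v ∣ n`) over the finite places
`v` of `K`, where `χ_T(v)` is the value of `χ_T` at a generator of `v`. -/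
def Nonvanishing (n : 𝓞 K) (c : Ideal (𝓞 K) → ℂ) (T : Finset (HeightOneSpectrum (𝓞 K))) : Prop :=
  open Classical in
  ∃ G : ℂ → ℂ, Differentiable ℂ G ∧
    (∀ s : ℂ, 2 < s.re → HasProd (fun v : HeightOneSpectrum (𝓞 K) =>
      (1 - c v.asIdeal * chi T (Submodule.IsPrincipal.generator v.asIdeal) *
          (Ideal.absNorm v.asIdeal : ℂ) ^ (-s) +
        (if n ∈ v.asIdeal then 0 else chi T (Submodule.IsPrincipal.generator v.asIdeal) ^ 2 *
          (Ideal.absNorm v.asIdeal : ℂ) ^ (1 - 2 * s)))⁻¹) (G s)) ∧ G 1 ≠ 0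

end field

/-- Let `K` be an imaginary quadratic field of class number one and let `E_i : y² = x³ + a_i x + b_i` (`i < m`) be
elliptic curves over `K` with the Bianchi newforms `f_i` and with `L(E_i/K, 1) ≠ 0`.  Suppose that `m = 1` and
`E(K)[2] = 0`, or that an automorphism over `K` moves all points of order two of all the curves.
(1) There is `ε` with `0 < ε < 1` such that for every finite set `Y` of nonzero elements and for all large `X` at
least `X / (log X)^(1 - ε)` of the `T` of the class with conductor of norm at most `X` have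
`L(f_i ⊗ χ_T, 1) ≠ 0` for all `i`.
(2) If the central values of all `f_i` are odd, then `L(f_i ⊗ χ_T, 1) ≠ 0` for all `i` and all `T` of the
class. -/
theorem result (K : Type) [Field K] [NumberField K] [IsPrincipalIdealRing (𝓞 K)] (σ : K →+* ℂ)
    (δ : K) (hK : IsFieldData K σ δ) {m : ℕ} (a b n : Fin m → 𝓞 K)
    (hΔ : ∀ i, 4 * a i ^ 3 + 27 * b i ^ 2 ≠ 0) (c : Fin m → Ideal (𝓞 K) → ℂ)
    (hc : ∀ i, IsNewform σ δ (n i) (c i)) (hE : ∀ i, IsNewformOf (a i) (b i) (n i) (c i))
    (h0 : ∀ i, Nonvanishing (n i) (c i) ∅) (hg : Movable a b) :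
    (∃ ε : ℝ, 0 < ε ∧ ε < 1 ∧ ∀ Y : Set (𝓞 K), Y.Finite → (0 : 𝓞 K) ∉ Y →
      ∃ X₀ : ℕ, ∀ X : ℕ, X₀ ≤ X → (X : ℝ) / Real.log X ^ (1 - ε) ≤
        {T | InClass a b Y T ∧ conductorNorm T ≤ X ∧ ∀ i, Nonvanishing (n i) (c i) T}.ncard) ∧
    ((∀ i, OddCentralValue σ δ (n i) (c i)) → ∀ Y T, InClass a b Y T →
      ∀ i, Nonvanishing (n i) (c i) T) := by
  classical
  have hK' : K4H55.BI.IQ K σ δ := ⟨hK.quadratic, hK.imaginary, inferInstance, hK.different⟩
  have hc' : ∀ i, K4H55.BI.BF σ δ (n i) (c i) := fun i =>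
    ⟨(hc i).level, (hc i).zero, (hc i).one, (hc i).bound, (hc i).good, (hc i).bad,
      (hc i).invariant, (hc i).fricke⟩
  have hx : ∀ i, 2 * (4 * a i ^ 3 + 27 * b i ^ 2) ≠ 0 := fun i => mul_ne_zero two_ne_zero (hΔ i)
  have hcl : ∀ Y T, InClass a b Y T ↔ K4H55.BI.Cl (K4H55.BM.AE a b) Y T := by
    intro Y T
    constructor
    · intro h
      exact ⟨fun v hv => ⟨h.odd v hv, fun i => ⟨h.good v hv i, h.no_root v hv i⟩⟩, h.units,
        h.split⟩
    · intro h
      exact ⟨fun v hv => (h.adm v hv).1, fun v hv i => ((h.adm v hv).2 i).1,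
        fun v hv i => ((h.adm v hv).2 i).2, h.unit, h.one⟩
  refine ⟨?_, fun hodd Y T hT i => ?_⟩
  · obtain ⟨g, hgH, hgm⟩ : ∃ g : Pool.Agent.W569.FM.GF ℚ, g ∈ Pool.Agent.Y142.HH ℚ K ∧
        ∀ i, ∀ t : AlgebraicClosure ℚ, K4H55.BD.Ro (Pool.Agent.Y142.emb ℚ K (a i : K))
          (Pool.Agent.Y142.emb ℚ K (b i : K)) t → g t ≠ t := by
      refine K4H55.BM.transport ?_
      rcases hg with ⟨rfl, hr⟩ | ⟨g, hg⟩
      · have hΔK : 4 * (a 0 : K) ^ 3 + 27 * (b 0 : K) ^ 2 ≠ 0 := by
          intro h1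
          apply hΔ 0
          apply RingOfIntegers.ext
          simp only [map_add, map_mul, map_pow, map_ofNat, map_zero]
          exact h1
        obtain ⟨g, hg⟩ := K4H55.BD.move_one hΔK (hr 0)
        exact ⟨g, fun i => by rw [Fin.fin_one_eq_zero i]; exact hg⟩
      · exact ⟨g, hg⟩
    obtain ⟨ε, hε, hε1, h1⟩ := K4H55.BM.final hK' n a b hx c hc' h0 hE hgH hgm
    refine ⟨ε, hε, hε1, fun Y hY hY0 => ?_⟩
    obtain ⟨X0, hX0⟩ := h1 Y hY hY0
    refine ⟨X0, fun X hX => (hX0 X hX).trans (le_of_eq ?_)⟩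
    congr 1
    refine congrArg Set.ncard (Set.ext fun T => ⟨?_, ?_⟩)
    · rintro ⟨⟨h2, h3⟩, h4⟩
      exact ⟨(hcl Y T).2 h2, h4, h3⟩
    · rintro ⟨h2, h4, h3⟩
      exact ⟨⟨(hcl Y T).1 h2, h3⟩, h4⟩
  · refine K4H55.BK.nvt_odd hK' (hc' i) (hodd i) (fun v hv => ?_) hT.units
    have h1 := hE i v (hT.good v hv i)
    refine ⟨hT.odd v hv, h1.1, (Ideal.absNorm v.asIdeal : ℤ) - K4H55.BD.pv (a i) (b i) v, ?_, ?_⟩
    · rw [h1.2]
      push_cast
      rfl
    · obtain ⟨k, hk⟩ := K4H55.BD.pv_even (hT.odd v hv) (hT.no_root v hv i)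
      have h3 := K4H55.BM.norm_odd (hT.odd v hv)
      rw [Nat.odd_iff] at h3
      omega

end Pool.Agent.Results.MP_50bb2e_nt.BianchiCharacterCount
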