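import Pool.Agent.K4H55.BI.Main

/-!
# Quadratic twists of Bianchi newforms

`K` is an imaginary quadratic field of class number one and `f_i` (`i = 1, …, m`) are newforms of weight
two over `K` (Bianchi newforms, trivial character, arbitrary coefficient fields) with central values
`L(f_i, 1) ≠ 0`.  The quadratic characters over `K` of odd conductor are the products `χ_T` of the quadratic
residue symbols at the primes `v` of finite sets `T` with `χ_T(u) = 1` for all units `u`.  Let `λ` be a prime
above `2` of the ring of the algebraic integers.  A prime `v` is admissible if it divides neither `2` nor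
the levels and the Hecke eigenvalues `c_i(v)` are not in `λ`.  The class consists of the `T` composed of
admissible primes with `χ_T(y) = 1` for all `y` of a given set `Y`, that is, with prescribed (trivial) local
components.

Theorem: up to a bounded number of corrections all the twists by the characters of this class have
central order zero, simultaneously for all `f_i`: there is a subset `𝒦` of the class, of size bounded
independently of the local conditions, such that for every `T` of the class one of the characters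
`χ_T χ_k`, `k ∈ 𝒦`, has `L(f_i ⊗ χ_T χ_k, 1) ≠ 0` for all `i`.  So a positive proportion of the class has
central order zero.

The proof: let `Φ` be the primitive of the harmonic differential of `f`.  The finite sums
`∑ χ_T(x) Φ(x/m_T)`, `Φ` being extended to the cusps, are the central values up to nonzero factors (this
and the analytic continuation come from the Mellin transform of the Fourier series of `Φ` and from the
Fricke involution).  The values of `Φ` at the cusps generate a finitely generated abelian group, as the group `Γ₀(n)` is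
finitely generated, and the Hecke operators act on it.  So the Hecke eigenvalues lie in a ring `R` which is
finite over `ℤ` and whose elements `c(v)`, `v` admissible, are not in the maximal ideal `P` of `R` below `λ`.
After division by products of these numbers the sums become, modulo higher and higher powers of `P`,
combinations of characters of the group of the `T`, and Krull's intersection theorem gives the
corrections.
-/

set_option autoImplicit false

open NumberField IsDedekindDomain Matrix
open scoped symmDiff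

namespace Pool.Agent.Results.MP_50bb2e_nt.BianchiTwists

/-- `K` is an imaginary quadratic field, `σ` is one of its two embeddings in `ℂ`, and `δ` generates the
different of `K`: an `x ∈ K` is in `𝓞` if and only if `Tr(x y / δ) ∈ ℤ` for all `y ∈ 𝓞`. -/
structure IsFieldData (K : Type) [Field K] [NumberField K] (σ : K →+* ℂ) (δ : K) : Prop where
  quadratic : Module.finrank ℚ K = 2
  imaginary : ∃ x, (starRingEnd ℂ) (σ x) ≠ σ x
  different : ∀ x : K, (∃ a : 𝓞 K, (a : K) = x) ↔
    ∀ y : 𝓞 K, ∃ m : ℤ, Algebra.trace ℚ K (x * y / δ) = m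

/-- `h(y) = ∫_0^∞ exp(-1/v - y v) dv = 2 y^(-1/2) K₁(2 √y)`, with the Bessel function `K₁`. -/
noncomputable def bessel (y : ℝ) : ℝ := ∫ v in Set.Ioi (0 : ℝ), Real.exp (-(1 / v) - y * v)

/-- The additive character `e(z) = exp(2πi (z/δ + conj (z/δ)))` of `ℂ`, trivial on `𝓞`. -/
noncomputable def addChar (δ z : ℂ) : ℂ :=
  Complex.exp (2 * Real.pi * Complex.I * (z / δ + (starRingEnd ℂ) (z / δ)))

/-- The denominator `|c z + d|² + |c|² t²` of the action of the matrix `(a, b; c, d)` on the hyperbolic
space `{(z, t) : z ∈ ℂ, t > 0}`. -/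
noncomputable def den (c d z : ℂ) (t : ℝ) : ℝ := ‖c * z + d‖ ^ 2 + ‖c‖ ^ 2 * t ^ 2

/-- The first coordinate `((a z + b) conj (c z + d) + a conj(c) t²) / (|c z + d|² + |c|² t²)` of the image
of `(z, t)` under the matrix `(a, b; c, d)`. -/
noncomputable def actZ (a b c d z : ℂ) (t : ℝ) : ℂ :=
  ((a * z + b) * (starRingEnd ℂ) (c * z + d) + a * (starRingEnd ℂ) c * (t : ℂ) ^ 2) /
    (den c d z t : ℂ)

/-- The second coordinate, for a matrix of determinant one; in general it is `|ad - bc|` times this. -/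
noncomputable def actT (c d z : ℂ) (t : ℝ) : ℝ := t / den c d z t

section field
variable {K : Type} [Field K] [NumberField K]

/-- The function `Φ(z, t) = ∑_{x ∈ 𝓞} c((x)) t² h(N(x) (2πt/|δ|)²) e(x z)
  = (|δ|/π) ∑_{x ≠ 0} (c((x))/|x|) t K₁(4π|x|t/|δ|) e(x z)` on the hyperbolic space, with the coefficients `c`.
Up to a constant factor it is the primitive, zero at the cusp `∞`, of the harmonic differential of the
form of weight two with the Fourier coefficients `c`: its derivative by `t` is
`-4 ∑_{x ≠ 0} c((x)) t K₀(4π|x|t/|δ|) e(x z)`. -/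
noncomputable def primitive (σ : K →+* ℂ) (δ : K) (c : Ideal (𝓞 K) → ℂ) (z : ℂ) (t : ℝ) : ℂ :=
  ∑' x : 𝓞 K, c (Ideal.span {x}) * ((t ^ 2 * bessel (Ideal.absNorm (Ideal.span {x}) *
    (2 * Real.pi * t / ‖σ δ‖) ^ 2) : ℝ) : ℂ) * addChar (σ δ) (σ x * z)

/-- The numbers `c(I)` are the Hecke eigenvalues of a Bianchi newform `f` of weight two, level `(n)` and
trivial character over `K`: they satisfy `c(𝓞) = 1`, the (trivial) bound `c(I) = O(N(I))` and the Hecke
relations `c(v I) = c(v) c(I)` for `v ∤ I`, `c(v² I) = c(v) c(v I) - N(v) c(I)` for the primes `v ∤ n`, and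
`c(v I) = c(v) c(I)` for `v ∣ n`; the differential `dΦ` of the function `Φ` with the coefficients `c` is
invariant under `Γ₀(n)`, that is, `Φ(γ P) - Φ(P)` is a constant for every `γ ∈ Γ₀(n)`; and `dΦ` is an
eigenform, with the eigenvalue `±1`, of the Fricke involution `W = (0, -1; n, 0)`. -/
structure IsNewform (σ : K →+* ℂ) (δ : K) (n : 𝓞 K) (c : Ideal (𝓞 K) → ℂ) : Prop where
  level : n ≠ 0
  zero : c ⊥ = 0
  one : c ⊤ = 1
  bound : ∃ C : ℝ, ∀ I, ‖c I‖ ≤ C * Ideal.absNorm I
  good : ∀ v : HeightOneSpectrum (𝓞 K), n ∉ v.asIdeal → ∀ I,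
    (¬ v.asIdeal ∣ I → c (v.asIdeal * I) = c v.asIdeal * c I) ∧
    c (v.asIdeal * (v.asIdeal * I)) = c v.asIdeal * c (v.asIdeal * I) -
      Ideal.absNorm v.asIdeal * c I
  bad : ∀ v : HeightOneSpectrum (𝓞 K), n ∈ v.asIdeal → ∀ I,
    c (v.asIdeal * I) = c v.asIdeal * c I
  invariant : ∃ κ : SpecialLinearGroup (Fin 2) (𝓞 K) → ℂ,
    ∀ γ : SpecialLinearGroup (Fin 2) (𝓞 K), n ∣ γ.1 1 0 → ∀ (z : ℂ) (t : ℝ), 0 < t →
      primitive σ δ c (actZ (σ (γ.1 0 0)) (σ (γ.1 0 1)) (σ (γ.1 1 0)) (σ (γ.1 1 1)) z t)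
        (actT (σ (γ.1 1 0)) (σ (γ.1 1 1)) z t) = primitive σ δ c z t + κ γ
  fricke : ∃ w κ : ℂ, w * w = 1 ∧ ∀ (z : ℂ) (t : ℝ), 0 < t →
    primitive σ δ c (actZ 0 (-1) (σ n) 0 z t) (‖σ n‖ * actT (σ n) 0 z t) =
      -w * primitive σ δ c z t + κ

open Classical in
/-- The quadratic residue symbol `(x / v)`, for `v ∤ 2`. -/
noncomputable def symbol (v : HeightOneSpectrum (𝓞 K)) (x : 𝓞 K) : ℂ :=
  if x ∈ v.asIdeal then 0 else if ∃ y, x - y ^ 2 ∈ v.asIdeal then 1 else -1

/-- `χ_T(x) = ∏_{v ∈ T} (x / v)`. -/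
noncomputable def chi (T : Finset (HeightOneSpectrum (𝓞 K))) (x : 𝓞 K) : ℂ := ∏ v ∈ T, symbol v x

/-- The norm of the conductor `∏_{v ∈ T} v` of `χ_T`. -/
noncomputable def conductorNorm (T : Finset (HeightOneSpectrum (𝓞 K))) : ℕ :=
  ∏ v ∈ T, Ideal.absNorm v.asIdeal

/-- The class of the sets `T` of primes: all `v ∈ T` are admissible, that is, `v` divides neither `2` nor
the levels `n_i`, and `c_i(v)` is not an element of `λ`; `χ_T` is trivial on the units, so that it is a quadratic
character over `K` of conductor `∏_{v ∈ T} v` (with the value `χ_T(x)` at the ideal `(x)`); and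
`χ_T(y) = 1` for all `y ∈ Y`.  (For the generator `y` of a prime this says that the local component of
`χ_T` at this prime is trivial.) -/
structure InClass {m : ℕ} (n : Fin m → 𝓞 K) (c : Fin m → Ideal (𝓞 K) → ℂ)
    (lam : Ideal (integralClosure ℤ ℂ)) (Y : Set (𝓞 K))
    (T : Finset (HeightOneSpectrum (𝓞 K))) : Prop where
  odd : ∀ v ∈ T, (2 : 𝓞 K) ∉ v.asIdeal
  level : ∀ v ∈ T, ∀ i, n i ∉ v.asIdeal
  eigenvalue : ∀ v ∈ T, ∀ i, ∀ x ∈ lam, (x : ℂ) ≠ c i v.asIdeal
  units : ∀ u, IsUnit u → chi T u = 1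
  split : ∀ y ∈ Y, chi T y = 1

variable [IsPrincipalIdealRing (𝓞 K)]

/-- `L(f ⊗ χ_T, s)` is entire and not zero at the central point `s = 1`: there is an entire function `G` with
`G(1) ≠ 0` which for `Re s > 2` is the complete Euler product of
`(1 - c(v) χ_T(v) (Nv)^(-s) + χ_T(v)² (Nv)^(1-2s))⁻¹` (without the last term if `v ∣ n`) over the finite places
`v` of `K`, where `χ_T(v)` is the value of `χ_T` at a generator of `v`. -/
def Nonvanishing (n : 𝓞 K) (c : Ideal (𝓞 K) → ℂ) (T : Finset (HeightOneSpectrum (𝓞 K))) : Prop :=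
  open Classical in
  ∃ G : ℂ → ℂ, Differentiable ℂ G ∧
    (∀ s : ℂ, 2 < s.re → HasProd (fun v : HeightOneSpectrum (𝓞 K) =>
      (1 - c v.asIdeal * chi T (Submodule.IsPrincipal.generator v.asIdeal) *
          (Ideal.absNorm v.asIdeal : ℂ) ^ (-s) +
        (if n ∈ v.asIdeal then 0 else chi T (Submodule.IsPrincipal.generator v.asIdeal) ^ 2 *
          (Ideal.absNorm v.asIdeal : ℂ) ^ (1 - 2 * s)))⁻¹) (G s)) ∧ G 1 ≠ 0

end field

open Classical in
/-- Let `K` be an imaginary quadratic field of class number one, let `f_i` (`i < m`) be Bianchi newforms of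
weight two over `K` with `L(f_i, 1) ≠ 0` and let `λ` be a prime ideal above `2` of the ring of the algebraic
integers.  There is `V` such that for every set `Y` the class of the `T` has the following properties.
(1) There is a subset `𝒦` of the class with at most `V` elements such that for every `T` of the class there
is `k ∈ 𝒦` such that `L(f_i ⊗ χ_{T ∆ k}, 1) ≠ 0` for all `i` (`T ∆ k`, the symmetric difference, is again in the
class; `χ_{T ∆ k}` is the primitive character of `χ_T χ_k`).
(2) There is `C` such that for all `X` the number of the `T` of the class with conductor of norm at most `X` is at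
most `C` times the number of the `T` of the class with conductor of norm at most `C X` for which
`L(f_i ⊗ χ_T, 1) ≠ 0` for all `i`. -/
theorem result (K : Type) [Field K] [NumberField K] [IsPrincipalIdealRing (𝓞 K)] (σ : K →+* ℂ)
    (δ : K) (hK : IsFieldData K σ δ) {m : ℕ} (n : Fin m → 𝓞 K) (c : Fin m → Ideal (𝓞 K) → ℂ)
    (hc : ∀ i, IsNewform σ δ (n i) (c i)) (h0 : ∀ i, Nonvanishing (n i) (c i) ∅)
    (lam : Ideal (integralClosure ℤ ℂ)) (hlam : lam.IsPrime)
    (h2 : (2 : integralClosure ℤ ℂ) ∈ lam) :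
    ∃ V : ℕ, ∀ Y : Set (𝓞 K),
      (∃ 𝒦 : Finset (Finset (HeightOneSpectrum (𝓞 K))), 𝒦.card ≤ V ∧
        (∀ k ∈ 𝒦, InClass n c lam Y k) ∧
        ∀ T, InClass n c lam Y T → ∃ k ∈ 𝒦, InClass n c lam Y (T ∆ k) ∧
          ∀ i, Nonvanishing (n i) (c i) (T ∆ k)) ∧
      ∃ C : ℕ, ∀ X : ℕ, {T | InClass n c lam Y T ∧ conductorNorm T ≤ X}.ncard ≤
        C * {T | InClass n c lam Y T ∧ conductorNorm T ≤ C * X ∧
          ∀ i, Nonvanishing (n i) (c i) T}.ncard := by
  have hK' : K4H55.BI.IQ K σ δ := ⟨hK.quadratic, hK.imaginary, inferInstance, hK.different⟩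
  have hc' : ∀ i, K4H55.BI.BF σ δ (n i) (c i) := fun i =>
    ⟨(hc i).level, (hc i).zero, (hc i).one, (hc i).bound, (hc i).good, (hc i).bad,
      (hc i).invariant, (hc i).fricke⟩
  have hnv : ∀ i T, Nonvanishing (n i) (c i) T ↔ K4H55.BI.NVT (n i) (c i) T := fun i T => Iff.rfl
  have hcl : ∀ Y T, InClass n c lam Y T ↔ K4H55.BI.Cl (K4H55.BI.Adm n c lam) Y T := by
    intro Y T
    constructor
    · intro h
      exact ⟨fun v hv => ⟨h.odd v hv, fun i => ⟨h.level v hv i, h.eigenvalue v hv i⟩⟩, h.units,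
        h.split⟩
    · intro h
      exact ⟨fun v hv => (h.adm v hv).1, fun v hv i => ((h.adm v hv).2 i).1,
        fun v hv i => ((h.adm v hv).2 i).2, h.unit, h.one⟩
  obtain ⟨V, hV⟩ := K4H55.BI.main hK' n c hc' (fun i => (hnv i ∅).1 (h0 i)) lam hlam h2
  refine ⟨V, fun Y => ?_⟩
  obtain ⟨KK, h1, h3, h4⟩ := hV Y
  refine ⟨⟨KK, h1, fun k hk => (hcl Y k).2 (h3 k hk), fun T hT => ?_⟩, ?_⟩
  · obtain ⟨k, hk, h5, h6⟩ := h4 T ((hcl Y T).1 hT)
    exact ⟨k, hk, (hcl Y _).2 h5, fun i => (hnv i _).2 (h6 i)⟩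
  · refine K4H55.BI.count (fun T => ∀ i, Nonvanishing (n i) (c i) T) KK fun T hT => ?_
    obtain ⟨k, hk, h5, h6⟩ := h4 T ((hcl Y T).1 hT)
    exact ⟨k, hk, (hcl Y _).2 h5, fun i => (hnv i _).2 (h6 i)⟩

end Pool.Agent.Results.MP_50bb2e_nt.BianchiTwists
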