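import Pool.Agent.K4H55.AB.Cls

/-!
# Many quadratic twists of elliptic curves over abelian number fields

`E_i : y² = x³ + a_i x + b_i` (`i = 1, …, m`) are elliptic curves over `ℚ` given with their newforms,
`K_i` are abelian number fields of conductor prime to the levels, and `L(E_i/K_i, 1) ≠ 0`.  The twists
are those by the quadratic characters `χ_D ∘ N_{K_i/ℚ}` of `K_i`, that is `L(E_i^(D)/K_i, s)`, with `D`
squarefree, `D ≡ 1 mod 4`.

Theorem: if `E(K)[2] = 0` (for several curves: if some automorphism of the algebraic closure of `ℚ` over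
the fields `K_i` moves all the points of order two of all the `E_i`), then the number of these `D` with
`|D| ≤ X`, with prescribed (trivial) components of `χ_D` at a finite set of primes and at infinity, and
`L(E_i^(D)/K_i, 1) ≠ 0` for all `i`, is at least `X / (log X)^(1-δ)` for all large `X`, with `δ > 0`
depending only on the `E_i` and `K_i`.

The proof: `L(E/K, s)` is the product of the twists `L(E, χ, s)` by the characters `χ` of `K/ℚ`, whose
values are sums of modular symbols.  Call a prime `q` admissible if `#E_i(k_v)` is odd for all `i` and all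
places `v` of `K_i` above `q`.  For such `q` the numbers `a_q - χ(q) - χ(q)⁻¹` are units at a prime ideal
`P` above `2`, since the product of the numbers `1 - χ(q) a_q + χ(q)² q` over the characters of `K` is the
product of the `#E(k_v)`.  After division by products of these units the sums become, modulo higher and
higher powers of `P`, combinations of characters of the group of the `D` composed of admissible primes,
and Krull's intersection theorem shows that a positive proportion of these `D` has `L ≠ 0`.  The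
primes `q` with a Frobenius element in the class of the automorphism above are admissible, and they
have a positive density by Chebotarev's theorem; the integers composed of them are counted by blocks,
and the conditions at the finite set of primes and at infinity are met by a bounded correction.
-/

set_option autoImplicit false

open Complex UpperHalfPlane MatrixGroups CongruenceSubgroup NumberField IsDedekindDomain

namespace Pool.Agent.Results.MP_50bb2e_nt.ManyTwistsOverAbelianFields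

/-- `N_p`: the number of pairs `(x, y) ∈ (ℤ/p)²` with `y² = x³ + a x + b`. -/
noncomputable def pointCount (a b : ℤ) (p : ℕ) : ℕ :=
  Nat.card {q : ZMod p × ZMod p // q.2 ^ 2 = q.1 ^ 3 + (a : ZMod p) * q.1 + (b : ZMod p)}

/-- `p` is a prime not dividing `2 Δ`, `Δ = -4 a³ - 27 b²`. -/
def GoodPrime (a b : ℤ) (p : ℕ) : Prop :=
  p.Prime ∧ ¬ ((p : ℤ) ∣ 2 * (-4 * a ^ 3 - 27 * b ^ 2))

/-- The `n`-th Fourier coefficient of `f`. -/
noncomputable def coef {N : ℕ} (f : CuspForm (Gamma0 N : Subgroup (GL (Fin 2) ℝ)) 2) (n : ℕ) : ℂ :=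
  (qExpansion 1 f).coeff n

/-- `f ∈ S_2(Γ₀(N))` is the newform of the elliptic curve `E : y² = x³ + a x + b`, with its standard
properties: the Fourier coefficients `c(n)` of `f` are real with `c(1) = 1`, they satisfy the Hecke
relations `c(mn) = c(m) c(n)` for coprime `m`, `n` and `c(p^(j+2)) = c(p) c(p^(j+1)) - p c(p^j)`
(without the last term if `p ∣ N`) and the bounds `|c(p)| ≤ 2√p` for `p ∤ N`, `|c(p)| ≤ 1` for
`p ∣ N`; `f` is an eigenfunction of the Fricke involution: `f(-1/(Nτ)) = -w N τ² f(τ)` with `w = ±1`;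
for all primes `p ∤ 2Δ` one has `p ∤ N` and `c(p) = a_p(E)`.  (Every elliptic curve over `ℚ` has such a
form by the modularity theorem.) -/
structure IsFormOf (a b : ℤ) (N : ℕ) (f : CuspForm (Gamma0 N : Subgroup (GL (Fin 2) ℝ)) 2) :
    Prop where
  one : coef f 1 = 1
  real : ∀ n, (coef f n).im = 0
  mul : ∀ m n : ℕ, Nat.Coprime m n → coef f (m * n) = coef f m * coef f n
  pow : ∀ p j : ℕ, p.Prime → coef f (p ^ (j + 2)) = coef f p * coef f (p ^ (j + 1)) -
      (if p ∣ N then 0 else (p : ℂ) * coef f (p ^ j))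
  good : ∀ p : ℕ, p.Prime → ¬ p ∣ N → ‖coef f p‖ ≤ 2 * Real.sqrt p
  bad : ∀ p : ℕ, p.Prime → p ∣ N → ‖coef f p‖ ≤ 1
  fricke : ∃ w : ℝ, (w = 1 ∨ w = -1) ∧ ∀ τ τ' : ℍ, (τ' : ℂ) * ((N : ℂ) * (τ : ℂ)) = -1 →
    f τ' = -(w : ℂ) * (N : ℂ) * (τ : ℂ) ^ 2 * f τ
  points : ∀ p : ℕ, GoodPrime a b p → ¬ p ∣ N ∧ coef f p = (p : ℂ) - (pointCount a b p : ℂ)

/-- `pw t u n = α ^ n + β ^ n`, where `α`, `β` are the roots of `X² - t X + u`. -/
noncomputable def pw (t u : ℂ) : ℕ → ℂ
  | 0 => 2
  | 1 => t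
  | n + 2 => t * pw t u (n + 1) - u * pw t u n

section
variable {K : Type} [Field K] [NumberField K]

/-- The number of the points of `E : y² = x³ + a x + b` over the residue field `k_v` of the finite place
`v` of `K`, with the point at infinity. -/
noncomputable def points (a b : ℤ) (v : HeightOneSpectrum (𝓞 K)) : ℕ :=
  Nat.card {x : (𝓞 K ⧸ v.asIdeal) × (𝓞 K ⧸ v.asIdeal) //
    x.2 ^ 2 = x.1 ^ 3 + (a : 𝓞 K ⧸ v.asIdeal) * x.1 + (b : 𝓞 K ⧸ v.asIdeal)} + 1

open Classical in
/-- The Euler factor at the finite place `v` of `K`, with `Nv = p ^ d`, `p` prime, of the `L`-function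
over `K` of the elliptic curve `E : y² = x³ + a x + b` with conductor composed of the primes dividing
`N` and with coefficients `c(p)` of `L(E/ℚ, s)`.  If `v ∤ 2 Δ`, it is
`(1 - a_v (Nv)^(-s) + (Nv)^(1-2s))⁻¹` with `a_v = Nv + 1 - #E(k_v)`.  If `v ∣ 2 Δ`, it is
`(1 - (α^d + β^d) (Nv)^(-s) + (Nv)^(1-2s))⁻¹` for `p ∤ N`, where `α`, `β` are the roots of
`X² - c(p) X + p`, and `(1 - c(p)^d (Nv)^(-s))⁻¹` for `p ∣ N`.  (The primes `p ∣ N` will be
unramified in `K`, so that this is the Hasse-Weil factor.) -/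
noncomputable def factor (a b : ℤ) (N : ℕ) (c : ℕ → ℂ) (s : ℂ) (v : HeightOneSpectrum (𝓞 K)) : ℂ :=
  if ((2 * (4 * a ^ 3 + 27 * b ^ 2) : ℤ) : 𝓞 K) ∈ v.asIdeal then
    (1 - pw (c (Ideal.absNorm v.asIdeal).minFac)
          (if (Ideal.absNorm v.asIdeal).minFac ∣ N then 0 else ((Ideal.absNorm v.asIdeal).minFac : ℂ))
          ((Ideal.absNorm v.asIdeal).factorization (Ideal.absNorm v.asIdeal).minFac)
          * ((Ideal.absNorm v.asIdeal : ℕ) : ℂ) ^ (-s)
      + (if (Ideal.absNorm v.asIdeal).minFac ∣ N then (0 : ℂ) else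
          ((Ideal.absNorm v.asIdeal : ℕ) : ℂ) ^ (1 - 2 * s)))⁻¹
  else
    (1 - (((Ideal.absNorm v.asIdeal : ℕ) : ℂ) + 1 - (points a b v : ℂ)) *
        ((Ideal.absNorm v.asIdeal : ℕ) : ℂ) ^ (-s)
      + ((Ideal.absNorm v.asIdeal : ℕ) : ℂ) ^ (1 - 2 * s))⁻¹

end

/-- `L(E^(D)/K, s)` is entire and `L(E^(D)/K, 1) ≠ 0`, where `E : y² = x³ + a x + b` has the newform `f`
of level `N`, `D ≡ 1 mod 4` is squarefree and prime to `2 Δ N`, and `E^(D) : y² = x³ + a D² x + b D³` is
the quadratic twist.  (The conductor of `E^(D)` is composed of the primes dividing `N |D|`, and the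
coefficients of `L(E^(D)/ℚ, s)` are `(p / |D|) c(p)` with the Jacobi symbol, the value at `p` of the
quadratic character of conductor `|D|`.)  There is an entire function `G` which for `Re s > 3/2` is the
complete Euler product over the finite places of `K`, and `G(1) ≠ 0`. -/
def Nonvanishing (K : Type) [Field K] [NumberField K] (a b : ℤ) {N : ℕ}
    (f : CuspForm (Gamma0 N : Subgroup (GL (Fin 2) ℝ)) 2) (D : ℤ) : Prop :=
  ∃ G : ℂ → ℂ, Differentiable ℂ G ∧
    (∀ s : ℂ, 3 / 2 < s.re → HasProd (fun v : HeightOneSpectrum (𝓞 K) =>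
      factor (a * D ^ 2) (b * D ^ 3) (N * D.natAbs)
        (fun p => (jacobiSym p D.natAbs : ℂ) * coef f p) s v) (G s)) ∧ G 1 ≠ 0

section
variable {m : ℕ} (a b : Fin m → ℤ) (n : Fin m → ℕ)
  (K : Fin m → Type) [∀ i, Field (K i)] [∀ i, NumberField (K i)]

/-- The prime `q` is admissible: for all `i`, `q ∤ 2 Δ_i`, `q ∤ n_i` (so that `q` is unramified in
`K_i`, a subfield of the `n_i`-th cyclotomic field) and `#E_i(k_v)` is odd for all the places `v` of `K_i`
above `q`. -/
def Admissible (q : ℕ) : Prop :=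
  ∀ i, GoodPrime (a i) (b i) q ∧ ¬ q ∣ n i ∧
    ∀ v : HeightOneSpectrum (𝓞 (K i)), ((q : ℕ) : 𝓞 (K i)) ∈ v.asIdeal →
      ¬ 2 ∣ points (a i) (b i) v

/-- The class of the discriminants `D`: `D` is squarefree, `D ≡ 1 mod 4`, all prime divisors of `D` are
admissible, `D > 0` if `pos` is required, and `χ_D(p) = 1` for all `p ∈ P`. -/
structure InClass (pos : Prop) (P : Finset ℕ) (D : ℤ) : Prop where
  squarefree : Squarefree D
  one : D % 4 = 1
  admissible : ∀ q : ℕ, q.Prime → (q : ℤ) ∣ D → Admissible a b n K q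
  positive : pos → 0 < D
  split : ∀ p ∈ P, jacobiSym p D.natAbs = 1

/-- The automorphism `σ` of the algebraic closure of `ℚ` fixes all the elements of all the fields
`K_i` (in all their embeddings) and moves all the points of order two of all the curves `E_i`: it fixes
no root of `x³ + a_i x + b_i`. -/
def Moves (σ : Gal(AlgebraicClosure ℚ/ℚ)) : Prop :=
  ∀ i, (∀ (φ : K i →ₐ[ℚ] AlgebraicClosure ℚ) (x : K i), σ (φ x) = φ x) ∧
    ∀ t : AlgebraicClosure ℚ, t ^ 3 + (a i : AlgebraicClosure ℚ) * t + (b i : AlgebraicClosure ℚ) = 0 →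
      σ t ≠ t

end

theorem pw_eq (t u : ℂ) : ∀ n : ℕ, pw t u n = W165.CE.pw t u n
  | 0 => rfl
  | 1 => rfl
  | n + 2 => by rw [pw, W165.CE.pw, pw_eq t u (n + 1), pw_eq t u n]

theorem factor_eq {K : Type} [Field K] [NumberField K] (a b : ℤ) (N : ℕ) (c : ℕ → ℂ) (s : ℂ)
    (v : HeightOneSpectrum (𝓞 K)) : factor a b N c s v = W165.CE.fac a b N c s v := by
  unfold factor W165.CE.fac
  rw [pw_eq]
  congr 4
  unfold points W165.CE.av
  push_cast
  ring

theorem nonvanishing_iff {m : ℕ} (a b : Fin m → ℤ) {N : Fin m → ℕ}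
    (K : Fin m → Type) [∀ i, Field (K i)] [∀ i, NumberField (K i)]
    (f : (i : Fin m) → CuspForm (Gamma0 (N i) : Subgroup (GL (Fin 2) ℝ)) 2) (D : ℤ) :
    Pool.Agent.K4H55.AB.NVD a b N K f D ↔ ∀ i, Nonvanishing (K i) (a i) (b i) (f i) D := by
  unfold Pool.Agent.K4H55.AB.NVD Nonvanishing
  refine forall_congr' fun i => exists_congr fun G => and_congr Iff.rfl (and_congr ?_ Iff.rfl)
  refine forall_congr' fun s => forall_congr' fun _ => ?_
  have h : (fun v : HeightOneSpectrum (𝓞 (K i)) => factor (a i * D ^ 2) (b i * D ^ 3)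
      (N i * D.natAbs) (fun p => (jacobiSym p D.natAbs : ℂ) * coef (f i) p) s v) =
      W165.CE.fac (a i * D ^ 2) (b i * D ^ 3) (N i * D.natAbs)
        (fun p => (jacobiSym p D.natAbs : ℂ) * Pool.Agent.Y18.BSD.co (f i) p) s := by
    funext v
    exact factor_eq _ _ _ _ s v
  rw [h]

theorem inClass_iff {m : ℕ} (hm : 0 < m) (a b : Fin m → ℤ) (n : Fin m → ℕ)
    (K : Fin m → Type) [∀ i, Field (K i)] [∀ i, NumberField (K i)] (pos : Prop) (P : Finset ℕ)
    (D : ℤ) : Pool.Agent.K4H55.AB.DC (Pool.Agent.K4H55.AB.AK a b n K) pos P D ↔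
      InClass a b n K pos P D := by
  constructor
  · rintro ⟨h1, h2, h3, h4, h5⟩
    exact ⟨h1, h2, fun q hq hd => (h3 q hq hd).2.2, h4, h5⟩
  · rintro ⟨h1, h2, h3, h4, h5⟩
    refine ⟨h1, h2, fun q hq hd => ?_, h4, h5⟩
    have h6 := h3 q hq hd
    exact ⟨hq, Pool.Agent.Y18.BSD.good_ne_two (h6 ⟨0, hm⟩).1, h6⟩

/-- **Theorem.** Let `m ≥ 1`, `E_i : y² = x³ + a_i x + b_i`, `i = 1, …, m`, elliptic curves over `ℚ` with
newforms `f_i` of levels `N_i`, and `K_i` number fields which embed into the `n_i`-th cyclotomic field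
with `(n_i, N_i) = 1`, such that `L(E_i/K_i, s)` is entire with `L(E_i/K_i, 1) ≠ 0`.  Assume that
`m = 1` and `E_1(K_1)[2] = 0`, or, for any `m`, that there is an automorphism `σ` of the algebraic closure
of `ℚ` fixing the elements of all the `K_i` and moving all the points of order two of all the `E_i`.

Then there is a number `0 < δ < 1`, depending only on the `E_i` and `K_i`, such that for all finite sets
`P` of primes, with or without the condition `D > 0`, and all sufficiently large `X` there are at least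
`X / (log X)^(1-δ)` squarefree integers `D ≡ 1 mod 4` with `|D| ≤ X`, composed of admissible primes, with
`χ_D(p) = 1` for `p ∈ P` and `D > 0` if this is required, such that `L(E_i^(D)/K_i, s)` is entire with
`L(E_i^(D)/K_i, 1) ≠ 0` for all `i`. -/
theorem result (m : ℕ) (hm : 0 < m) (a b : Fin m → ℤ) (hΔ : ∀ i, 4 * a i ^ 3 + 27 * b i ^ 2 ≠ 0)
    (N : Fin m → ℕ) (hN : ∀ i, N i ≠ 0)
    (f : (i : Fin m) → CuspForm (Gamma0 (N i) : Subgroup (GL (Fin 2) ℝ)) 2)
    (hf : ∀ i, IsFormOf (a i) (b i) (N i) (f i))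
    (K : Fin m → Type) [∀ i, Field (K i)] [∀ i, NumberField (K i)]
    (n : Fin m → ℕ) (hn : ∀ i, n i ≠ 0) (hnN : ∀ i, (n i).Coprime (N i))
    (hK : ∀ i, Nonempty (K i →ₐ[ℚ] CyclotomicField (n i) ℚ))
    (h0 : ∀ i, Nonvanishing (K i) (a i) (b i) (f i) 1)
    (h2 : (m = 1 ∧ ∀ i, ∀ x : K i, x ^ 3 + (a i : K i) * x + (b i : K i) ≠ 0) ∨
        ∃ σ : Gal(AlgebraicClosure ℚ/ℚ), Moves a b K σ) :
    ∃ δ : ℝ, 0 < δ ∧ δ < 1 ∧ ∀ (pos : Prop) (P : Finset ℕ), (∀ p ∈ P, p.Prime) →
      ∃ X₀ : ℕ, ∀ X : ℕ, X₀ ≤ X → (X : ℝ) / Real.log X ^ (1 - δ) ≤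
        Nat.card {D : ℤ // InClass a b n K pos P D ∧ |D| ≤ X ∧
          ∀ i, Nonvanishing (K i) (a i) (b i) (f i) D} := by
  obtain ⟨V, hV⟩ := Pool.Agent.K4H55.AB.final a b N n K f hN hn hΔ
    (fun i => ⟨(hf i).one, (hf i).real, (hf i).mul, (hf i).pow, (hf i).good, (hf i).bad,
        (hf i).fricke, (hf i).points⟩) hnN hK ((nonvanishing_iff a b K f 1).2 h0)
  have hgal : ∀ i, IsGalois ℚ (K i) := by
    intro i
    have i1 : NeZero (n i) := ⟨hn i⟩
    have i2 : NeZero ((n i : ℕ) : ℚ) := ⟨Nat.cast_ne_zero.2 (hn i)⟩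
    have i5 : IsCyclotomicExtension {n i} ℚ (CyclotomicField (n i) ℚ) :=
      CyclotomicField.isCyclotomicExtension (n i) ℚ
    have i3 : IsAbelianGalois ℚ (CyclotomicField (n i) ℚ) :=
      IsCyclotomicExtension.isAbelianGalois {n i} ℚ (CyclotomicField (n i) ℚ)
    have i4 := IsAbelianGalois.of_algHom (hK i).some
    exact i4.toIsGalois
  have hσ' : ∃ σ : Gal(AlgebraicClosure ℚ/ℚ), Moves a b K σ := by
    rcases h2 with ⟨h1, h2⟩ | h
    · obtain ⟨g, hg, hg2⟩ := Pool.Agent.K4H55.AB.exists_moveK (hΔ ⟨0, hm⟩) (h2 ⟨0, hm⟩)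
      have hsub : ∀ i : Fin m, i = ⟨0, hm⟩ := by
        subst h1
        exact fun i => Subsingleton.elim _ _
      refine ⟨g, fun i => ?_⟩
      rw [hsub i]
      have := hgal ⟨0, hm⟩
      exact ⟨Pool.Agent.K4H55.AB.mem_HH_all hg, hg2⟩
    · exact h
  obtain ⟨g, hg⟩ := hσ'
  obtain ⟨d, hd, h1⟩ := Pool.Agent.K4H55.AB.adm_density a b n K hΔ hn g
    (fun i => Pool.Agent.K4H55.AB.conj_mem_HH (hg i).1) (fun i => (hg i).2)
  obtain ⟨δ, hδ, hδ1, h2⟩ := Pool.Agent.K4H55.AB.quant
    (A := Pool.Agent.K4H55.AB.AK a b n K) (fun q hq => ⟨hq.1, hq.2.1⟩) hd h1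
  refine ⟨δ, hδ, hδ1, fun pos P hP => ?_⟩
  obtain ⟨KD, -, -, -, C, h4⟩ := hV pos P
  obtain ⟨X0, h5⟩ := h2 (Pool.Agent.K4H55.AB.NVD a b N K f) pos P hP C h4
  refine ⟨X0, fun X hX => ?_⟩
  have h6 := h5 X hX
  simp only [inClass_iff hm, nonvanishing_iff] at h6
  exact h6

end Pool.Agent.Results.MP_50bb2e_nt.ManyTwistsOverAbelianFields
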